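import Pool.Agent.H20EH.Levels

/-!
# Graphs that are not a countable union of triangle-free graphs have a core: more than `μ` hubs
-/

namespace Pool.Agent.H20EH

open Set Cardinal

universe u

/-- The subgraph induced on `W` has a proper colouring with countably many colours. -/
def CountablyChromatic {V : Type u} (G : SimpleGraph V) (W : Set V) : Prop :=
  ∃ c : V → ℕ, ∀ y ∈ W, ∀ z ∈ W, G.Adj y z → c y ≠ c z

/-- pulling back a colouring along a homomorphism -/
theorem triColorable_of_hom {V : Type u} {V' : Type u} {G : SimpleGraph V} {G' : SimpleGraph V'}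
    (f : V' → V) (hf : ∀ x y, G'.Adj x y → G.Adj (f x) (f y))
    (hG : Pool.Agent.H52EH.TriColorable G) : Pool.Agent.H52EH.TriColorable G' := by
  obtain ⟨c, hc1, hc2⟩ := hG
  exact ⟨fun x y => c (f x) (f y), fun x y => hc1 _ _,
    fun x y z hxy hyz hxz => hc2 _ _ _ (hf _ _ hxy) (hf _ _ hyz) (hf _ _ hxz)⟩

/-- Colouring from a rank function. -/
theorem triColorable_of_rank {μ : Cardinal.{u}} (hμ : ℵ₀ ≤ μ) :
    ∀ (V : Type u) (G : SimpleGraph V) (rank : V → Ordinal.{u}),
    (∀ S : Set V, #S ≤ μ →
      Pool.Agent.H52EH.TriColorable (G.comap (Subtype.val : S → V))) →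
    (∀ x, ∀ W : Set V, (∀ y ∈ W, G.Adj x y) →
      (∀ F : Finset V, (↑F : Set V) ⊆ W →
        μ < #{z | rank x ≤ rank z ∧ ∀ y ∈ F, G.Adj z y}) →
      CountablyChromatic G W) → Pool.Agent.H52EH.TriColorable G := by
  suffices H : ∀ (κ : Cardinal.{u}) (V : Type u), #V = κ → ∀ (G : SimpleGraph V)
      (rank : V → Ordinal.{u}),
      (∀ S : Set V, #S ≤ μ →
        Pool.Agent.H52EH.TriColorable (G.comap (Subtype.val : S → V))) →
      (∀ x, ∀ W : Set V, (∀ y ∈ W, G.Adj x y) →
        (∀ F : Finset V, (↑F : Set V) ⊆ W →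
          μ < #{z | rank x ≤ rank z ∧ ∀ y ∈ F, G.Adj z y}) →
        CountablyChromatic G W) → Pool.Agent.H52EH.TriColorable G from
    fun V => H #V V rfl
  intro κ
  induction κ using WellFoundedLT.induction with
  | ind κ ih =>
  intro V hV G rank hbase hG
  classical
  rcases le_or_gt #V μ with hc | hc
  · -- at most `μ` vertices
    refine triColorable_of_hom (fun x => (⟨x, Set.mem_univ x⟩ : (Set.univ : Set V))) ?_
      (hbase Set.univ (by rw [mk_univ]; exact hc))
    intro x y h
    exact h
  -- the closing operation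
  let nb : Finset V → V → Set V := fun F y => {z | rank y ≤ rank z ∧ ∀ w ∈ F, G.Adj z w}
  let op : Finset V → Set V := fun F =>
    if F = ∅ then ∅ else {y | (∀ w ∈ F, G.Adj y w) ∧ #(nb F y) ≤ μ}
  have hop : ∀ F, #(op F) ≤ μ := by
    intro F
    by_cases hF : F = ∅
    · simp only [op, hF, if_true]
      simp
    · simp only [op, hF, if_false]
      rcases Set.eq_empty_or_nonempty {y | (∀ w ∈ F, G.Adj y w) ∧ #(nb F y) ≤ μ} with he | hne
      · rw [he]
        simp
      · obtain ⟨y, hy, hmin⟩ := (InvImage.wf rank Ordinal.lt_wf).has_min _ hne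
        refine (mk_le_mk_of_subset ?_).trans hy.2
        intro z hz
        refine ⟨?_, hz.1⟩
        exact not_lt.1 (hmin z hz)
  have hempty : op ∅ = ∅ := by simp only [op, if_true]
  obtain ⟨ι, _, lev, hlev, hM⟩ := exists_levels' hμ hop hempty hc
  -- colouring of the lower neighbourhood of `x`
  have hlow : ∀ x : V, ∃ φ : V → ℕ, ∀ y z, G.Adj x y → G.Adj x z → G.Adj y z →
      lev y < lev x → lev z < lev x → φ y ≠ φ z := by
    intro x
    obtain ⟨M, hM1, hM2, hM3⟩ := hM x
    have hkey : ∀ F : Finset V, F ≠ ∅ → (↑F : Set V) ⊆ {y | G.Adj x y ∧ lev y < lev x} →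
        μ < #{z | rank x ≤ rank z ∧ ∀ y ∈ F, G.Adj z y} := by
      intro F hF hFS
      by_contra hcount
      apply hM2
      have h1 : x ∈ op F := by
        simp only [op, hF, if_false]
        exact ⟨fun w hw => (hFS hw).1, not_lt.1 hcount⟩
      exact hM1 F (fun y hy => hM3 y (hFS hy).2) h1
    have hchr : CountablyChromatic G {y | G.Adj x y ∧ lev y < lev x} := by
      rcases Set.eq_empty_or_nonempty {y | G.Adj x y ∧ lev y < lev x} with he | ⟨y₀, hy₀⟩
      · refine ⟨fun _ => 0, ?_⟩
        intro y hy
        rw [he] at hy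
        exact absurd hy (Set.notMem_empty y)
      · refine hG x _ (fun y hy => hy.1) ?_
        intro F hFS
        by_cases hF : F = ∅
        · subst hF
          refine (hkey {y₀} (Finset.singleton_ne_empty y₀) ?_).trans_le (mk_le_mk_of_subset ?_)
          · intro y hy
            rw [Finset.coe_singleton, Set.mem_singleton_iff] at hy
            rw [hy]
            exact hy₀
          · intro z hz
            exact ⟨hz.1, fun y hy => absurd hy (Finset.notMem_empty y)⟩
        · exact hkey F hF hFS
    obtain ⟨c, hcc⟩ := hchr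
    exact ⟨c, fun y z hxy hxz hyz hy hz => hcc y ⟨hxy, hy⟩ z ⟨hxz, hz⟩ hyz⟩
  choose φ hφ using hlow
  -- colourings inside the levels
  have hlevel : ∀ i : ι, ∃ c : V → V → ℕ, (∀ x y, c x y = c y x) ∧
      ∀ x y z, lev x = i → lev y = i → lev z = i → G.Adj x y → G.Adj y z → G.Adj x z →
        ¬(c x y = c y z ∧ c y z = c x z) := by
    intro i
    have hlt : #{x // lev x = i} < κ := hV ▸ hlev i
    obtain ⟨c, hc1, hc2⟩ := ih _ hlt {x // lev x = i} rfl (G.comap Subtype.val)
      (fun x => rank x.1) (by
      intro S hS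
      refine triColorable_of_hom
        (fun x => (⟨x.1.1, ⟨x.1, x.2, rfl⟩⟩ : (Subtype.val '' S : Set V))) ?_
        (hbase (Subtype.val '' S) (mk_image_le.trans hS))
      intro x y h
      exact h) (by
      intro x W hW hF
      obtain ⟨c, hcc⟩ := hG x.1 (Subtype.val '' W) (by
        rintro _ ⟨y, hy, rfl⟩
        exact hW y hy) (by
        intro F hFW
        have hFi : ∀ y ∈ F, lev y = i := by
          intro y hy
          obtain ⟨z, hz, rfl⟩ := hFW hy
          exact z.2
        let F' : Finset {x // lev x = i} := F.subtype (fun x => lev x = i)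
        refine (hF F' ?_).trans_le ?_
        · intro y hy
          have hy1 : y.1 ∈ F := by
            have := Finset.mem_coe.1 hy
            exact Finset.mem_subtype.1 this
          obtain ⟨z, hz, hzy⟩ := hFW hy1
          have : z = y := Subtype.ext hzy
          exact this ▸ hz
        · refine mk_le_of_injective (f := fun z => ⟨z.1.1, ?_⟩) ?_
          · obtain ⟨z, hz1, hz2⟩ := z
            refine ⟨hz1, ?_⟩
            intro y hy
            exact hz2 ⟨y, hFi y hy⟩ (Finset.mem_subtype.2 hy)
          · intro a b hab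
            have h1 := congrArg Subtype.val hab
            exact Subtype.ext (Subtype.ext h1))
      refine ⟨fun y => c y.1, ?_⟩
      intro y hy z hz hyz
      exact hcc y.1 ⟨y, hy, rfl⟩ z.1 ⟨z, hz, rfl⟩ hyz)
    refine ⟨fun x y => if h : lev x = i ∧ lev y = i then c ⟨x, h.1⟩ ⟨y, h.2⟩ else 0, ?_, ?_⟩
    · intro x y
      by_cases h : lev x = i ∧ lev y = i
      · simp only [h, and_self, dif_pos]
        exact hc1 _ _
      · have h' : ¬(lev y = i ∧ lev x = i) := fun h' => h h'.symm
        simp only [h, h', dif_neg, not_false_iff]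
    · intro x y z hx hy hz hxy hyz hxz
      have h1 : lev x = i ∧ lev y = i := ⟨hx, hy⟩
      have h2 : lev y = i ∧ lev z = i := ⟨hy, hz⟩
      simp only [h1, h2]
      exact hc2 ⟨x, hx⟩ ⟨y, hy⟩ ⟨z, hz⟩ hxy hyz hxz
  choose c hc1 hc2 using hlevel
  -- the colouring
  let col : V → V → ℕ := fun x y =>
    if lev x = lev y then 2 * c (lev x) x y
    else if lev y < lev x then 2 * φ x y + 1 else 2 * φ y x + 1
  have hsymm : ∀ x y, col x y = col y x := by
    intro x y
    simp only [col]
    rcases lt_trichotomy (lev x) (lev y) with h | h | h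
    · simp [h, h.ne, h.ne', not_lt.2 h.le]
    · simp [h, hc1 _ x y]
    · simp [h, h.ne, h.ne', not_lt.2 h.le]
  -- even colours occur exactly inside levels
  have heven : ∀ x y, lev x = lev y → col x y = 2 * c (lev x) x y := by
    intro x y h
    simp [col, h]
  have hodd : ∀ x y, lev y < lev x → col x y = 2 * φ x y + 1 := by
    intro x y h
    simp [col, h, h.ne']
  refine ⟨col, hsymm, ?_⟩
  -- triangle with a unique top vertex
  have top1 : ∀ x y z, lev y < lev x → lev z < lev x → G.Adj x y → G.Adj x z → G.Adj y z →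
      col x y ≠ col x z := by
    intro x y z hy hz hxy hxz hyz
    rw [hodd x y hy, hodd x z hz]
    have := hφ x y z hxy hxz hyz hy hz
    omega
  -- two top vertices
  have top2 : ∀ x y z, lev x = lev y → lev z < lev x → col x y ≠ col x z := by
    intro x y z hxy hz
    rw [heven x y hxy, hodd x z hz]
    omega
  rintro x y z hxy hyz hxz ⟨h1, h2⟩
  have h3 : col x y = col x z := h1.trans h2
  have h1' : col y x = col y z := by rw [hsymm y x]; exact h1
  have h2' : col z y = col z x := by rw [hsymm z y, hsymm z x]; exact h2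
  rcases lt_trichotomy (lev x) (lev y) with hxy' | hxy' | hxy'
  · rcases lt_trichotomy (lev y) (lev z) with hyz' | hyz' | hyz'
    · exact top1 z y x hyz' (hxy'.trans hyz') hyz.symm hxz.symm hxy.symm h2'
    · exact top2 y z x hyz' hxy' h1'.symm
    · exact top1 y x z hxy' hyz' hxy.symm hyz hxz h1'
  · rcases lt_trichotomy (lev y) (lev z) with hyz' | hyz' | hyz'
    · exact top1 z y x hyz' (hxy' ▸ hyz') hyz.symm hxz.symm hxy.symm h2'
    · refine hc2 (lev x) x y z rfl hxy'.symm (hxy'.trans hyz').symm hxy hyz hxz ?_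
      rw [heven x y hxy', heven y z hyz', ← hxy'] at h1
      rw [heven y z hyz', heven x z (hxy'.trans hyz'), ← hxy'] at h2
      exact ⟨by omega, by omega⟩
    · exact top2 x y z hxy' (hxy' ▸ hyz') h3
  · rcases lt_trichotomy (lev x) (lev z) with hxz' | hxz' | hxz'
    · exact top1 z y x (hxy'.trans hxz') hxz' hyz.symm hxz.symm hxy.symm h2'
    · exact top2 x z y hxz' hxy' h3.symm
    · exact top1 x y z hxy' hxz' hxy hxz hyz h3

/-- Removing the points one after the other. -/
theorem exists_rank (V : Type u) (P : V → Set V → Prop)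
    (hP : ∀ Q : Set V, Q.Nonempty → ∃ x ∈ Q, P x Q) :
    ∃ rank : V → Ordinal.{u}, ∀ x, P x {z | rank x ≤ rank z} := by
  classical
  rcases isEmpty_or_nonempty V with hV | ⟨⟨v₀⟩⟩
  · exact ⟨fun x => (hV.false x).elim, fun x => (hV.false x).elim⟩
  let pick : Set V → V := fun Q => if h : Q.Nonempty then (hP Q h).choose else v₀
  have hpick : ∀ Q : Set V, Q.Nonempty → pick Q ∈ Q ∧ P (pick Q) Q := by
    intro Q h
    simp only [pick, h, dif_pos]
    exact (hP Q h).choose_spec
  let f : Ordinal.{u} → V := Ordinal.lt_wf.fix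
    (fun a ih => pick {z | ∀ b, ∀ h : b < a, ih b h ≠ z})
  have hf : ∀ a, f a = pick {z | ∀ b, b < a → f b ≠ z} := by
    intro a
    exact Ordinal.lt_wf.fix_eq _ a
  have hstop : ∃ a, ¬ ({z | ∀ b, b < a → f b ≠ z} : Set V).Nonempty := by
    by_contra hcon
    push Not at hcon
    have hinj : Function.Injective f := by
      have h1 : ∀ a b, b < a → f b ≠ f a := by
        intro a b hab
        have h2 := (hpick _ (hcon a)).1
        rw [← hf a] at h2
        exact h2 b hab
      intro a b hab
      rcases lt_trichotomy a b with h | h | h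
      · exact absurd hab (h1 b a h)
      · exact h
      · exact absurd hab.symm (h1 a b h)
    exact not_injective_of_ordinal f hinj
  obtain ⟨a₀, ha₀⟩ := hstop
  have hex : ∀ z, ∃ b, f b = z := by
    intro z
    by_contra hcon
    push Not at hcon
    exact ha₀ ⟨z, fun b _ => hcon b⟩
  let rank : V → Ordinal.{u} := fun z => sInf {b | f b = z}
  have hrank : ∀ z, f (rank z) = z := fun z => csInf_mem (hex z)
  have hrank' : ∀ z b, f b = z → rank z ≤ b := fun z b h => csInf_le' h
  refine ⟨rank, fun x => ?_⟩
  have hset : ({z | ∀ b, b < rank x → f b ≠ z} : Set V) = {z | rank x ≤ rank z} := by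
    ext z
    constructor
    · intro h
      by_contra hlt
      exact h (rank z) (not_le.1 hlt) (hrank z)
    · intro h b hb hbz
      exact absurd (hrank' z b hbz) (not_le.2 (hb.trans_le h))
  have h1 := hpick {z | ∀ b, b < rank x → f b ≠ z} (by
    rw [hset]
    exact ⟨x, le_refl (rank x)⟩)
  rw [← hf (rank x), hrank x, hset] at h1
  exact h1.2

end Pool.Agent.H20EH
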