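import Pool.Agent.H20EH.Types

/-!
# Colouring the edges of one order type, vertices in a product of sets
-/

namespace Pool.Agent.H20EH.Labels

variable {L M : Type} [LinearOrder L] [LinearOrder M] {n : ℕ}

/-- inner pattern on `S` -/
def In (X : Fin n → M) (S : Finset (Fin n)) (x : Fin n → L) : Prop :=
  ∀ i ∈ S, ∀ j ∈ S, (x i < x j ↔ X i < X j)

/-- cross pattern on `S` -/
def Cr (X Y : Fin n → M) (S : Finset (Fin n)) (x y : Fin n → L) : Prop :=
  ∀ i ∈ S, ∀ j ∈ S, (x i < y j ↔ X i < Y j) ∧ (y i < x j ↔ Y i < X j)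

/-- a family of `r` tuples with pairwise the type of `X`, `Y` on `S`, entries in `E` -/
def Fam (X Y : Fin n → M) (E : Fin n → Set L) (S : Finset (Fin n)) (r : ℕ) : Prop :=
  ∃ w : Fin r → Fin n → L, (∀ a, ∀ i ∈ S, w a i ∈ E i) ∧ (∀ a, In X S (w a)) ∧
    ∀ a b, a < b → Cr X Y S (w a) (w b)

lemma In.mono {X : Fin n → M} {S S' : Finset (Fin n)} {x : Fin n → L} (h : In X S x)
    (hS : S' ⊆ S) : In X S' x := fun i hi j hj => h i (hS hi) j (hS hj)

lemma Cr.mono {X Y : Fin n → M} {S S' : Finset (Fin n)} {x y : Fin n → L} (h : Cr X Y S x y)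
    (hS : S' ⊆ S) : Cr X Y S' x y := fun i hi j hj => h i (hS hi) j (hS hj)

lemma Fam.mono {X Y : Fin n → M} {E E' : Fin n → Set L} {S : Finset (Fin n)} {r : ℕ}
    (h : Fam X Y E S r) (hE : ∀ i ∈ S, E i ⊆ E' i) : Fam X Y E' S r := by
  obtain ⟨w, h1, h2, h3⟩ := h
  exact ⟨w, fun a i hi => hE i hi (h1 a i hi), h2, h3⟩

lemma fam_zero (X Y : Fin n → M) (E : Fin n → Set L) (S : Finset (Fin n)) : Fam X Y E S 0 :=
  ⟨fun a => a.elim0, fun a => a.elim0, fun a => a.elim0, fun a => a.elim0⟩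

/-- Put a family on `B` below a family on `S'`. -/
lemma combine {X Y : Fin n → M} {E : Fin n → Set L} {S B S' : Finset (Fin n)} {k : ℕ}
    (hS : ∀ i ∈ S, i ∈ B ∨ i ∈ S') (hdis : ∀ i ∈ B, i ∉ S')
    (hBS : ∀ i ∈ B, ∀ j ∈ S', X i < X j ∧ X i < Y j ∧ Y i < X j)
    (hne : S'.Nonempty) (hk : 0 < k)
    (h : Fam X Y (fun i => E i ∩ {t | Fam X Y (fun i => E i ∩ Set.Iio t) B k}) S' k) :
    Fam X Y E S k := by
  classical
  obtain ⟨w, h1, h2, h3⟩ := h
  have hne' : ((Finset.univ : Finset (Fin k)) ×ˢ S').Nonempty := by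
    obtain ⟨j, hj⟩ := hne
    exact ⟨(⟨0, hk⟩, j), by simp [hj]⟩
  obtain ⟨⟨a0, j0⟩, hm1, hm2⟩ := Finset.exists_min_image _
    (fun p : Fin k × Fin n => w p.1 p.2) hne'
  have hj0 : j0 ∈ S' := (Finset.mem_product.1 hm1).2
  have hmin : ∀ a, ∀ j ∈ S', w a0 j0 ≤ w a j := fun a j hj =>
    hm2 (a, j) (Finset.mem_product.2 ⟨Finset.mem_univ _, hj⟩)
  obtain ⟨u, u1, u2, u3⟩ := (h1 a0 j0 hj0).2
  have hlt : ∀ a b, ∀ i ∈ B, ∀ j ∈ S', u a i < w b j := fun a b i hi j hj =>
    lt_of_lt_of_le (u1 a i hi).2 (hmin b j hj)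
  let v : Fin k → Fin n → L := fun a i => if i ∈ B then u a i else w a i
  have v1 : ∀ a, ∀ i ∈ B, v a i = u a i := fun a i hi => if_pos hi
  have v2 : ∀ a, ∀ i ∈ S', v a i = w a i := fun a i hi => if_neg (fun h => hdis i h hi)
  refine ⟨v, ?_, ?_, ?_⟩
  · intro a i hi
    rcases hS i hi with h | h
    · rw [v1 a i h]
      exact (u1 a i h).1
    · rw [v2 a i h]
      exact (h1 a i h).1
  · intro a i hi j hj
    rcases hS i hi with h | h <;> rcases hS j hj with h' | h'
    · rw [v1 a i h, v1 a j h']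
      exact u2 a i h j h'
    · rw [v1 a i h, v2 a j h']
      exact ⟨fun _ => (hBS i h j h').1, fun _ => hlt a a i h j h'⟩
    · rw [v2 a i h, v1 a j h']
      exact ⟨fun h'' => absurd h'' (lt_asymm (hlt a a j h' i h)),
        fun h'' => absurd h'' (lt_asymm (hBS j h' i h).1)⟩
    · rw [v2 a i h, v2 a j h']
      exact h2 a i h j h'
  · intro a b hab i hi j hj
    rcases hS i hi with h | h <;> rcases hS j hj with h' | h'
    · rw [v1 a i h, v1 b j h', v1 b i h, v1 a j h']
      exact u3 a b hab i h j h'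
    · rw [v1 a i h, v2 b j h', v1 b i h, v2 a j h']
      exact ⟨⟨fun _ => (hBS i h j h').2.1, fun _ => hlt a b i h j h'⟩,
        ⟨fun _ => (hBS i h j h').2.2, fun _ => hlt b a i h j h'⟩⟩
    · rw [v2 a i h, v1 b j h', v2 b i h, v1 a j h']
      exact ⟨⟨fun h'' => absurd h'' (lt_asymm (hlt b a j h' i h)),
        fun h'' => absurd h'' (lt_asymm (hBS j h' i h).2.2)⟩,
        ⟨fun h'' => absurd h'' (lt_asymm (hlt a b j h' i h)),
        fun h'' => absurd h'' (lt_asymm (hBS j h' i h).2.1)⟩⟩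
    · rw [v2 a i h, v2 b j h', v2 b i h, v2 a j h']
      exact h3 a b hab i h j h'

lemma Fam.sub {X Y : Fin n → M} {E : Fin n → Set L} {S S' : Finset (Fin n)} {r : ℕ}
    (h : Fam X Y E S r) (hS : S' ⊆ S) : Fam X Y E S' r := by
  obtain ⟨w, h1, h2, h3⟩ := h
  exact ⟨w, fun a i hi => h1 a i (hS hi), fun a => (h2 a).mono hS,
    fun a b hab => (h3 a b hab).mono hS⟩

/-- The step for a lowest block which moves. -/
lemma step {X Y : Fin n → M} {E : Fin n → Set L} {S B S' : Finset (Fin n)} {k : ℕ} {i0 : Fin n}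
    (hi0 : i0 ∈ S) (hi0B : i0 ∈ B)
    (hS : ∀ i ∈ S, i ∈ B ∨ i ∈ S') (hS'sub : S' ⊆ S) (hdis : ∀ i ∈ B, i ∉ S')
    (hBS : ∀ i ∈ B, ∀ j ∈ S', X i < X j ∧ X i < Y j ∧ Y i < X j)
    (hno : ¬ Fam X Y E S k)
    (hrep : ∀ (x y : Fin n → L), (∀ i ∈ S, x i ∈ E i) → (∀ i ∈ S, y i ∈ E i) → In X S x →
      In X S y → Cr X Y S x y → ∃ u v, ((u = x i0 ∧ v = y i0) ∨ (u = y i0 ∧ v = x i0)) ∧ ∀ r,
      (Fam X Y (fun i => E i ∩ Set.Iio u) B r → Fam X Y (fun i => E i ∩ Set.Iio v) B (r + 1)))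
    (ih : ∀ E' : Fin n → Set L, ¬ Fam X Y E' S' k → ∃ f : (Fin n → L) → ℕ, ∀ x y,
      (∀ i ∈ S', x i ∈ E' i) → (∀ i ∈ S', y i ∈ E' i) → In X S' x → In X S' y →
      Cr X Y S' x y → f x ≠ f y) :
    ∃ f : (Fin n → L) → ℕ, ∀ x y, (∀ i ∈ S, x i ∈ E i) → (∀ i ∈ S, y i ∈ E i) → In X S x →
      In X S y → Cr X Y S x y → f x ≠ f y := by
  classical
  have hk : 0 < k := by
    rcases Nat.eq_zero_or_pos k with rfl | h
    · exact absurd (fam_zero X Y E S) hno
    · exact h
  let P : ℕ → L → Prop := fun r t => Fam X Y (fun i => E i ∩ Set.Iio t) B r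
  have hPmono : ∀ r t t', t ≤ t' → P r t → P r t' := by
    intro r t t' htt' h
    exact h.mono (fun i _ s hs => ⟨hs.1, lt_of_lt_of_le hs.2 htt'⟩)
  have hf' : ∃ f' : (Fin n → L) → ℕ, ∀ x y, (∀ i ∈ S', x i ∈ E i ∧ P k (x i)) →
      (∀ i ∈ S', y i ∈ E i ∧ P k (y i)) → In X S' x → In X S' y → Cr X Y S' x y →
      (S'.Nonempty ∨ ¬ P k (x i0)) → P k (x i0) → f' x ≠ f' y := by
    rcases S'.eq_empty_or_nonempty with he | hne
    · refine ⟨fun _ => 0, ?_⟩
      intro x y _ _ _ _ _ h hx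
      rcases h with h | h
      · rw [he] at h
        exact absurd h Finset.not_nonempty_empty
      · exact absurd hx h
    · obtain ⟨f', hf'⟩ := ih (fun i => E i ∩ {t | P k t}) (fun h =>
        hno (combine hS hdis hBS hne hk h))
      exact ⟨f', fun x y h1 h2 h3 h4 h5 _ _ => hf' x y h1 h2 h3 h4 h5⟩
  obtain ⟨f', hf'⟩ := hf'
  have hempty : ¬ S'.Nonempty → ∀ t, ¬ P k t := by
    intro he t ht
    rw [Finset.not_nonempty_iff_eq_empty] at he
    apply hno
    have h1 : Fam X Y E B k := ht.mono (fun i _ s hs => hs.1)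
    refine h1.sub ?_
    intro i hi
    rcases hS i hi with h | h
    · exact h
    · rw [he] at h
      exact absurd h (Finset.notMem_empty i)
  let rep : L → ℕ := fun t => Nat.findGreatest (fun r => P r t) k
  have hrep1 : ∀ t, P (rep t) t := fun t =>
    Nat.findGreatest_spec (P := fun r => P r t) (Nat.zero_le k) (fam_zero X Y _ B)
  have hrep2 : ∀ t, rep t ≤ k := fun t => Nat.findGreatest_le k
  have hrep3 : ∀ t r, r ≤ k → P r t → r ≤ rep t := fun t r hr h => Nat.le_findGreatest hr h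
  refine ⟨fun x => if P k (x i0) then 2 * f' x + 1 else 2 * rep (x i0), ?_⟩
  intro x y hx hy hxI hyI hC
  by_cases px : P k (x i0) <;> by_cases py : P k (y i0)
  · beta_reduce
    rw [if_pos px, if_pos py]
    have hne : S'.Nonempty := by
      by_contra h
      exact hempty h _ px
    have h1 : f' x ≠ f' y := by
      refine hf' x y ?_ ?_ (hxI.mono hS'sub) (hyI.mono hS'sub) (hC.mono hS'sub) (Or.inl hne) px
      · intro j hj
        exact ⟨hx j (hS'sub hj), hPmono _ _ _
          ((hxI i0 hi0 j (hS'sub hj)).2 (hBS i0 hi0B j hj).1).le px⟩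
      · intro j hj
        exact ⟨hy j (hS'sub hj), hPmono _ _ _
          ((hyI i0 hi0 j (hS'sub hj)).2 (hBS i0 hi0B j hj).1).le py⟩
    omega
  · beta_reduce
    rw [if_pos px, if_neg py]
    omega
  · beta_reduce
    rw [if_neg px, if_pos py]
    omega
  · beta_reduce
    rw [if_neg px, if_neg py]
    obtain ⟨u, v, huv, h⟩ := hrep x y hx hy hxI hyI hC
    have h1 : rep u + 1 ≤ rep v ∨ rep u = k := by
      rcases (hrep2 u).lt_or_eq with h2 | h2
      · exact Or.inl (hrep3 v _ h2 (h _ (hrep1 u)))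
      · exact Or.inr h2
    have hu : rep u ≠ k := by
      intro h2
      have h3 := hrep1 u
      rw [h2] at h3
      rcases huv with ⟨rfl, rfl⟩ | ⟨rfl, rfl⟩
      · exact px h3
      · exact py h3
    rcases huv with ⟨rfl, rfl⟩ | ⟨rfl, rfl⟩ <;> omega

/-- **Main lemma.** -/
theorem main {X Y Z : Fin n → M}
    (h1 : ∀ i j, X i < X j ↔ Y i < Y j)
    (h3 : ∀ i j, X i < Y j ↔ Y i < Z j) (h4 : ∀ i j, X i < Y j ↔ X i < Z j)
    (_h5 : ∀ i j, Y i < X j ↔ Z i < Y j) (h6 : ∀ i j, Y i < X j ↔ Z i < X j) (k : ℕ) :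
    ∀ (N : ℕ) (S : Finset (Fin n)), S.card = N → ∀ E : Fin n → Set L, ¬ Fam X Y E S k →
      ∃ f : (Fin n → L) → ℕ, ∀ x y, (∀ i ∈ S, x i ∈ E i) → (∀ i ∈ S, y i ∈ E i) → In X S x →
        In X S y → Cr X Y S x y → f x ≠ f y := by
  classical
  intro N
  induction N using Nat.strong_induction_on with
  | _ N IH =>
  intro S hN E hno
  rcases S.eq_empty_or_nonempty with rfl | hne
  · refine ⟨fun _ => 0, ?_⟩
    intro x y _ _ _ _ _
    exfalso
    refine hno ⟨fun _ => x, ?_, ?_, ?_⟩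
    · intro a i hi
      exact absurd hi (Finset.notMem_empty i)
    · intro a i hi
      exact absurd hi (Finset.notMem_empty i)
    · intro a b _ i hi
      exact absurd hi (Finset.notMem_empty i)
  obtain ⟨i0, hi0, hmin'⟩ := Finset.exists_min_image S X hne
  have hmin : ∀ j ∈ S, ¬ X j < X i0 := fun j hj => not_lt.2 (hmin' j hj)
  have hminY : ∀ j ∈ S, Y i0 ≤ Y j := fun j hj => not_lt.1 (fun h => hmin j hj ((h1 j i0).2 h))
  have hxmin : ∀ x : Fin n → L, In X S x → ∀ j ∈ S, x i0 ≤ x j := fun x hx j hj =>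
    not_lt.1 (fun h => hmin j hj ((hx j hj i0 hi0).1 h))
  rcases lt_trichotomy (X i0) (Y i0) with hlt | heq | hgt
  · -- increasing
    let B := S.filter (fun j => X j < Y i0)
    let S' := S.filter (fun j => ¬ X j < Y i0)
    have hB : ∀ i ∈ B, i ∈ S ∧ X i < Y i0 := fun i hi => Finset.mem_filter.1 hi
    have hS' : ∀ i ∈ S', i ∈ S ∧ ¬ X i < Y i0 := fun i hi => Finset.mem_filter.1 hi
    have hi0B : i0 ∈ B := Finset.mem_filter.2 ⟨hi0, hlt⟩
    have hd : ∀ j ∈ S', Y i0 < X j := by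
      intro j hj
      have hj' := (hS' j hj).2
      rcases lt_or_ge (Y i0) (X j) with h | h
      · exact h
      · exfalso
        have e : X j = Y i0 := le_antisymm h (not_lt.1 hj')
        have a1 : ¬ Y i0 < X j := not_lt.2 h
        have a2 : ¬ Z i0 < X j := fun h' => a1 ((h6 i0 j).2 h')
        have a3 : ¬ X j < Z i0 := fun h' => hj' ((h4 j i0).2 h')
        have a4 : X j = Z i0 := le_antisymm (not_lt.1 a2) (not_lt.1 a3)
        have a5 : Y i0 < Z i0 := (h3 i0 i0).1 hlt
        rw [← e, a4] at a5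
        exact lt_irrefl _ a5
    have hBS : ∀ i ∈ B, ∀ j ∈ S', X i < X j ∧ X i < Y j ∧ Y i < X j := by
      intro i hi j hj
      refine ⟨(hB i hi).2.trans (hd j hj), lt_of_lt_of_le (hB i hi).2 (hminY j (hS' j hj).1), ?_⟩
      exact ((h3 i i0).1 (hB i hi).2).trans ((h6 i0 j).1 (hd j hj))
    have hBB : ∀ i ∈ B, ∀ j ∈ B, X i < Y j ∧ ¬ Y i < X j := by
      intro i hi j hj
      refine ⟨lt_of_lt_of_le (hB i hi).2 (hminY j (hB j hj).1), ?_⟩
      exact lt_asymm (lt_of_lt_of_le (hB j hj).2 (hminY i (hB i hi).1))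
    refine step (B := B) (S' := S') hi0 hi0B ?_ (Finset.filter_subset _ _) ?_ hBS hno ?_ ?_
    · intro i hi
      by_cases h : X i < Y i0
      · exact Or.inl (Finset.mem_filter.2 ⟨hi, h⟩)
      · exact Or.inr (Finset.mem_filter.2 ⟨hi, h⟩)
    · intro i hi hi'
      exact (hS' i hi').2 (hB i hi).2
    · intro x y hx hy hxI hyI hC
      refine ⟨x i0, y i0, Or.inl ⟨rfl, rfl⟩, ?_⟩
      rintro r ⟨w, w1, w2, w3⟩
      have hxy : x i0 < y i0 := (hC i0 hi0 i0 hi0).1.2 hlt
      refine ⟨Fin.snoc w x, ?_, ?_, ?_⟩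
      · intro a
        refine Fin.lastCases ?_ (fun a => ?_) a
        · intro i hi
          rw [Fin.snoc_last]
          exact ⟨hx i (hB i hi).1, (hC i (hB i hi).1 i0 hi0).1.2 (hB i hi).2⟩
        · intro i hi
          rw [Fin.snoc_castSucc]
          exact ⟨(w1 a i hi).1, lt_trans (w1 a i hi).2 hxy⟩
      · intro a
        refine Fin.lastCases ?_ (fun a => ?_) a
        · rw [Fin.snoc_last]
          exact hxI.mono (Finset.filter_subset _ _)
        · rw [Fin.snoc_castSucc]
          exact w2 a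
      · intro a b
        refine Fin.lastCases ?_ (fun b => ?_) b
        · refine Fin.lastCases ?_ (fun a => ?_) a
          · intro h
            exact absurd h (lt_irrefl _)
          · intro _ i hi j hj
            rw [Fin.snoc_last, Fin.snoc_castSucc]
            have a1 : ∀ i' ∈ B, ∀ j' ∈ B, w a i' < x j' := fun i' hi' j' hj' =>
              lt_of_lt_of_le (w1 a i' hi').2 (hxmin x hxI j' (hB j' hj').1)
            exact ⟨⟨fun _ => (hBB i hi j hj).1, fun _ => a1 i hi j hj⟩,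
              ⟨fun h => absurd h (lt_asymm (a1 j hj i hi)), fun h => absurd h (hBB i hi j hj).2⟩⟩
        · refine Fin.lastCases ?_ (fun a => ?_) a
          · intro h
            exact absurd h (not_lt.2 (Fin.le_last _))
          · intro h
            rw [Fin.snoc_castSucc, Fin.snoc_castSucc]
            exact w3 a b (Fin.castSucc_lt_castSucc_iff.1 h)
    · intro E' hE'
      refine IH S'.card ?_ S' rfl E' hE'
      rw [← hN]
      refine Finset.card_lt_card ?_
      rw [Finset.ssubset_iff_of_subset (Finset.filter_subset _ _)]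
      exact ⟨i0, hi0, fun h => (hS' i0 h).2 hlt⟩
  · -- constant
    let B := S.filter (fun j => ¬ X i0 < X j)
    let S' := S.filter (fun j => X i0 < X j)
    have hB : ∀ i ∈ B, i ∈ S ∧ ¬ X i0 < X i := fun i hi => Finset.mem_filter.1 hi
    have hS' : ∀ i ∈ S', i ∈ S ∧ X i0 < X i := fun i hi => Finset.mem_filter.1 hi
    have hBX : ∀ i ∈ B, X i = X i0 := fun i hi =>
      le_antisymm (not_lt.1 (hB i hi).2) (hmin' i (hB i hi).1)
    have hBY : ∀ i ∈ B, Y i = X i0 := by
      intro i hi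
      rw [heq]
      refine le_antisymm (not_lt.1 (fun h => (hB i hi).2 ((h1 i0 i).2 h))) (hminY i (hB i hi).1)
    have hS'Y : ∀ j ∈ S', X i0 < Y j := by
      intro j hj
      rw [heq]
      exact (h1 i0 j).1 (hS' j hj).2
    have hS'card : S'.card < N := by
      rw [← hN]
      refine Finset.card_lt_card ?_
      rw [Finset.ssubset_iff_of_subset (Finset.filter_subset _ _)]
      exact ⟨i0, hi0, fun h => lt_irrefl _ (hS' i0 h).2⟩
    have hcov : ∀ i ∈ S, i ∈ B ∨ i ∈ S' := by
      intro i hi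
      by_cases h : X i0 < X i
      · exact Or.inr (Finset.mem_filter.2 ⟨hi, h⟩)
      · exact Or.inl (Finset.mem_filter.2 ⟨hi, h⟩)
    have hex : ∀ e : L, ∃ f : (Fin n → L) → ℕ, (∀ i ∈ B, e ∈ E i) → ∀ x y,
        (∀ i ∈ S', x i ∈ E i ∩ Set.Ioi e) → (∀ i ∈ S', y i ∈ E i ∩ Set.Ioi e) → In X S' x →
        In X S' y → Cr X Y S' x y → f x ≠ f y := by
      intro e
      by_cases he : ∀ i ∈ B, e ∈ E i
      · obtain ⟨f, hf⟩ := IH S'.card hS'card S' rfl (fun i => E i ∩ Set.Ioi e) (by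
          rintro ⟨w, w1, w2, w3⟩
          apply hno
          let v : Fin k → Fin n → L := fun a i => if X i0 < X i then w a i else e
          have v1 : ∀ a, ∀ i ∈ B, v a i = e := fun a i hi => if_neg (hB i hi).2
          have v2 : ∀ a, ∀ i ∈ S', v a i = w a i := fun a i hi => if_pos (hS' i hi).2
          refine ⟨v, ?_, ?_, ?_⟩
          · intro a i hi
            rcases hcov i hi with h | h
            · rw [v1 a i h]
              exact he i h
            · rw [v2 a i h]
              exact (w1 a i h).1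
          · intro a i hi j hj
            rcases hcov i hi with h | h <;> rcases hcov j hj with h' | h'
            · rw [v1 a i h, v1 a j h', hBX i h, hBX j h']
              exact ⟨fun h => absurd h (lt_irrefl _), fun h => absurd h (lt_irrefl _)⟩
            · rw [v1 a i h, v2 a j h', hBX i h]
              exact ⟨fun _ => (hS' j h').2, fun _ => (w1 a j h').2⟩
            · rw [v2 a i h, v1 a j h', hBX j h']
              exact ⟨fun h'' => absurd h'' (lt_asymm (w1 a i h).2),
                fun h'' => absurd h'' (lt_asymm (hS' i h).2)⟩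
            · rw [v2 a i h, v2 a j h']
              exact w2 a i h j h'
          · intro a b hab i hi j hj
            rcases hcov i hi with h | h <;> rcases hcov j hj with h' | h'
            · rw [v1 a i h, v1 b j h', v1 b i h, v1 a j h', hBX i h, hBX j h', hBY i h, hBY j h']
              exact ⟨⟨fun h => absurd h (lt_irrefl _), fun h => absurd h (lt_irrefl _)⟩,
                ⟨fun h => absurd h (lt_irrefl _), fun h => absurd h (lt_irrefl _)⟩⟩
            · rw [v1 a i h, v2 b j h', v1 b i h, v2 a j h', hBX i h, hBY i h]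
              exact ⟨⟨fun _ => hS'Y j h', fun _ => (w1 b j h').2⟩,
                ⟨fun _ => (hS' j h').2, fun _ => (w1 a j h').2⟩⟩
            · rw [v2 a i h, v1 b j h', v2 b i h, v1 a j h', hBX j h', hBY j h']
              exact ⟨⟨fun h'' => absurd h'' (lt_asymm (w1 a i h).2),
                fun h'' => absurd h'' (lt_asymm (hS' i h).2)⟩,
                ⟨fun h'' => absurd h'' (lt_asymm (w1 b i h).2),
                fun h'' => absurd h'' (lt_asymm (hS'Y i h))⟩⟩
            · rw [v2 a i h, v2 b j h', v2 b i h, v2 a j h']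
              exact w3 a b hab i h j h')
        exact ⟨f, fun _ => hf⟩
      · exact ⟨fun _ => 0, fun h => absurd h he⟩
    choose f hf using hex
    refine ⟨fun x => f (x i0) x, ?_⟩
    intro x y hx hy hxI hyI hC
    have hxy : x i0 = y i0 := by
      have a1 := hC i0 hi0 i0 hi0
      rw [← heq] at a1
      refine le_antisymm (not_lt.1 fun h => ?_) (not_lt.1 fun h => ?_)
      · exact lt_irrefl _ (a1.2.1 h)
      · exact lt_irrefl _ (a1.1.1 h)
    have hxB : ∀ i ∈ B, x i0 ∈ E i := by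
      intro i hi
      have : x i0 = x i := by
        refine le_antisymm (hxmin x hxI i (hB i hi).1) (not_lt.1 fun h => ?_)
        exact (hB i hi).2 ((hxI i0 hi0 i (hB i hi).1).1 h)
      rw [this]
      exact hx i (hB i hi).1
    change f (x i0) x ≠ f (y i0) y
    rw [← hxy]
    refine hf (x i0) hxB x y ?_ ?_ (hxI.mono (Finset.filter_subset _ _))
      (hyI.mono (Finset.filter_subset _ _)) (hC.mono (Finset.filter_subset _ _))
    · intro j hj
      exact ⟨hx j (hS' j hj).1, (hxI i0 hi0 j (hS' j hj).1).2 (hS' j hj).2⟩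
    · intro j hj
      refine ⟨hy j (hS' j hj).1, ?_⟩
      rw [hxy]
      exact (hyI i0 hi0 j (hS' j hj).1).2 (hS' j hj).2
  · -- decreasing
    let B := S.filter (fun j => Y j < X i0)
    let S' := S.filter (fun j => ¬ Y j < X i0)
    have hB : ∀ i ∈ B, i ∈ S ∧ Y i < X i0 := fun i hi => Finset.mem_filter.1 hi
    have hS' : ∀ i ∈ S', i ∈ S ∧ ¬ Y i < X i0 := fun i hi => Finset.mem_filter.1 hi
    have hi0B : i0 ∈ B := Finset.mem_filter.2 ⟨hi0, hgt⟩
    have hd : ∀ j ∈ S', X i0 < Y j := by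
      intro j hj
      have hj' := (hS' j hj).2
      rcases lt_or_ge (X i0) (Y j) with h | h
      · exact h
      · exfalso
        have e : Y j = X i0 := le_antisymm h (not_lt.1 hj')
        have a1 : ¬ X i0 < Y j := not_lt.2 h
        have a2 : ¬ X i0 < Z j := fun h' => a1 ((h4 i0 j).2 h')
        have a3 : ¬ Z j < X i0 := fun h' => hj' ((h6 j i0).2 h')
        have a4 : Z j = X i0 := le_antisymm (not_lt.1 a2) (not_lt.1 a3)
        have a5 : ¬ Y i0 < Z j := fun h' => a1 ((h3 i0 j).2 h')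
        rw [a4] at a5
        exact a5 hgt
    have hBS : ∀ i ∈ B, ∀ j ∈ S', X i < X j ∧ X i < Y j ∧ Y i < X j := by
      intro i hi j hj
      refine ⟨(h1 i j).2 ((hB i hi).2.trans (hd j hj)), ?_,
        lt_of_lt_of_le (hB i hi).2 (hmin' j (hS' j hj).1)⟩
      exact (h3 i j).2 ((hB i hi).2.trans ((h4 i0 j).1 (hd j hj)))
    have hBB : ∀ i ∈ B, ∀ j ∈ B, Y i < X j ∧ ¬ X i < Y j := by
      intro i hi j hj
      refine ⟨lt_of_lt_of_le (hB i hi).2 (hmin' j (hB j hj).1), ?_⟩
      exact lt_asymm (lt_of_lt_of_le (hB j hj).2 (hmin' i (hB i hi).1))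
    refine step (B := B) (S' := S') hi0 hi0B ?_ (Finset.filter_subset _ _) ?_ hBS hno ?_ ?_
    · intro i hi
      by_cases h : Y i < X i0
      · exact Or.inl (Finset.mem_filter.2 ⟨hi, h⟩)
      · exact Or.inr (Finset.mem_filter.2 ⟨hi, h⟩)
    · intro i hi hi'
      exact (hS' i hi').2 (hB i hi).2
    · intro x y hx hy hxI hyI hC
      refine ⟨y i0, x i0, Or.inr ⟨rfl, rfl⟩, ?_⟩
      rintro r ⟨w, w1, w2, w3⟩
      have hxy : y i0 < x i0 := (hC i0 hi0 i0 hi0).2.2 hgt
      refine ⟨Fin.cons y w, ?_, ?_, ?_⟩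
      · intro a
        refine Fin.cases ?_ (fun a => ?_) a
        · intro i hi
          rw [Fin.cons_zero]
          exact ⟨hy i (hB i hi).1, (hC i (hB i hi).1 i0 hi0).2.2 (hB i hi).2⟩
        · intro i hi
          rw [Fin.cons_succ]
          exact ⟨(w1 a i hi).1, lt_trans (w1 a i hi).2 hxy⟩
      · intro a
        refine Fin.cases ?_ (fun a => ?_) a
        · rw [Fin.cons_zero]
          exact hyI.mono (Finset.filter_subset _ _)
        · rw [Fin.cons_succ]
          exact w2 a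
      · intro a b
        refine Fin.cases ?_ (fun b => ?_) b
        · intro h
          exact absurd h (not_lt.2 (Fin.zero_le _))
        · refine Fin.cases ?_ (fun a => ?_) a
          · intro _ i hi j hj
            rw [Fin.cons_zero, Fin.cons_succ]
            have a1 : ∀ i' ∈ B, ∀ j' ∈ B, w b i' < y j' := fun i' hi' j' hj' =>
              lt_of_lt_of_le (w1 b i' hi').2 (hxmin y hyI j' (hB j' hj').1)
            exact ⟨⟨fun h => absurd h (lt_asymm (a1 j hj i hi)),
              fun h => absurd h (hBB i hi j hj).2⟩,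
              ⟨fun _ => (hBB i hi j hj).1, fun _ => a1 i hi j hj⟩⟩
          · intro h
            rw [Fin.cons_succ, Fin.cons_succ]
            exact w3 a b (Fin.succ_lt_succ_iff.1 h)
    · intro E' hE'
      refine IH S'.card ?_ S' rfl E' hE'
      rw [← hN]
      refine Finset.card_lt_card ?_
      rw [Finset.ssubset_iff_of_subset (Finset.filter_subset _ _)]
      exact ⟨i0, hi0, fun h => (hS' i0 h).2 hgt⟩

end Pool.Agent.H20EH.Labels
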