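import Pool.Agent.H52EH.Color

/-!
# Levels for a finitary operation with values of size at most `μ`; graphs on a continuum
-/

namespace Pool.Agent.H20EH

open Set Cardinal Pool.Agent.H52EH

universe u

variable {V : Type u} {op : Finset V → Set V}

lemma mk_cl_le' {μ : Cardinal.{u}} (hμ : ℵ₀ ≤ μ) (hop : ∀ F, #(op F) ≤ μ) (X : Set V) :
    #(cl op X) ≤ max #X μ := by
  set κ := max #X μ with hκ
  have hκμ : μ ≤ κ := le_max_right _ _
  have hκ0 : ℵ₀ ≤ κ := hμ.trans hκμ
  have hstage : ∀ k, #(stage op X k) ≤ κ := by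
    intro k
    induction k with
    | zero => exact le_max_left _ _
    | succ k ih =>
      have h1 : #{F : Finset V // ↑F ⊆ stage op X k} ≤ κ := by
        have h2 : #{F : Finset V // ↑F ⊆ stage op X k} ≤ #(Finset (stage op X k)) := by
          classical
          refine mk_le_of_injective (f := fun F => F.1.subtype (· ∈ stage op X k)) ?_
          intro F G hFG
          apply Subtype.ext
          have h3 : ∀ (F : {F : Finset V // ↑F ⊆ stage op X k}),
              (F.1.subtype (· ∈ stage op X k)).map (Function.Embedding.subtype _) = F.1 := by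
            intro F
            rw [Finset.subtype_map, Finset.filter_eq_self]
            intro x hx
            exact F.2 hx
          have hFG' : F.1.subtype (· ∈ stage op X k) = G.1.subtype (· ∈ stage op X k) := hFG
          rw [← h3 F, ← h3 G, hFG']
        refine h2.trans ?_
        rcases finite_or_infinite (stage op X k) with hfin | hinf
        · have : Finite (Finset (stage op X k)) := inferInstance
          exact (lt_aleph0_of_finite _).le.trans hκ0
        · rw [mk_finset_of_infinite]
          exact ih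
      have h4 : #(⋃ F : {F : Finset V // ↑F ⊆ stage op X k}, op F.1) ≤ κ := by
        refine (mk_iUnion_le _).trans ?_
        have h5 : (⨆ F : {F : Finset V // ↑F ⊆ stage op X k}, #(op F.1)) ≤ κ :=
          ciSup_le' fun F => (hop F.1).trans hκμ
        refine (mul_le_mul' h1 h5).trans ?_
        rw [mul_eq_self hκ0]
      exact (mk_union_le _ _).trans ((add_le_add ih h4).trans (add_eq_self hκ0).le)
  have h := mk_iUnion_le_lift (stage op X)
  rw [lift_uzero] at h
  refine h.trans ?_
  have h6 : (⨆ k, lift.{0} #(stage op X k)) ≤ κ := ciSup_le' fun k => by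
    rw [lift_uzero]
    exact hstage k
  have h7 : lift.{u, 0} #ℕ = ℵ₀ := by simp
  rw [h7]
  refine (mul_le_mul' le_rfl h6).trans ?_
  rw [aleph0_mul_eq hκ0]

/-- **Levels** for operations with values of size at most `μ`, on a set of more than `μ` elements. -/
theorem exists_levels' {μ : Cardinal.{u}} (hμ : ℵ₀ ≤ μ) (hop : ∀ F, #(op F) ≤ μ)
    (hempty : op ∅ = ∅) (hV : μ < #V) :
    ∃ (ι : Type u) (_ : LinearOrder ι) (lev : V → ι),
      (∀ i, #{x | lev x = i} < #V) ∧
      ∀ x, ∃ M : Set V, (∀ F : Finset V, ↑F ⊆ M → op F ⊆ M) ∧ x ∉ M ∧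
        ∀ y, lev y < lev x → y ∈ M := by
  classical
  have hV0 : ℵ₀ < #V := hμ.trans_lt hV
  let ι : Type u := (#V).ord.ToType
  have hι : #ι = #V := by simp [ι]
  obtain ⟨e⟩ : Nonempty (ι ≃ V) := Cardinal.eq.1 hι
  let X : ι → Set V := fun i => e '' Iic i
  have hXmono : ∀ i j, i ≤ j → X i ⊆ X j := fun i j h => image_mono (Iic_subset_Iic.2 h)
  have hex : ∀ x : V, ∃ i, x ∈ cl op (X i) := fun x =>
    ⟨e.symm x, subset_cl _ ⟨e.symm x, by simp, by simp⟩⟩
  let lev : V → ι := fun x => WellFounded.min (wellFounded_lt (α := ι)) {i | x ∈ cl op (X i)} (hex x)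
  have hlev : ∀ x, x ∈ cl op (X (lev x)) := fun x =>
    WellFounded.min_mem (wellFounded_lt (α := ι)) {i | x ∈ cl op (X i)} (hex x)
  have hlev' : ∀ x i, x ∈ cl op (X i) → lev x ≤ i := fun x i hi =>
    not_lt.1 (WellFounded.not_lt_min (wellFounded_lt (α := ι)) {i | x ∈ cl op (X i)} hi)
  refine ⟨ι, inferInstance, lev, ?_, ?_⟩
  · intro i
    have h1 : {x | lev x = i} ⊆ cl op (X i) := by
      rintro x rfl
      exact hlev x
    refine (mk_le_mk_of_subset h1).trans_lt ((mk_cl_le' hμ hop _).trans_lt (max_lt ?_ hV))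
    refine mk_image_le.trans_lt ?_
    have h2 : #(Iio i) < #V := by simpa [ι] using mk_Iio_lt i
    have h3 : #(Iic i) ≤ #(Iio i) + 1 := by
      rw [← Iio_insert]
      exact mk_insert_le
    refine h3.trans_lt (add_lt_of_lt hV0.le h2 ?_)
    exact (one_lt_aleph0).trans hV0
  · intro x
    refine ⟨⋃ j : {j // j < lev x}, cl op (X j.1), ?_, ?_, ?_⟩
    · intro F hF
      rcases F.eq_empty_or_nonempty with rfl | hne
      · rw [hempty]
        exact empty_subset _
      · have h1 : ∀ y ∈ F, ∃ j, j < lev x ∧ y ∈ cl op (X j) := by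
          intro y hy
          obtain ⟨j, hj⟩ := mem_iUnion.1 (hF hy)
          exact ⟨j.1, j.2, hj⟩
        have : Nonempty ι := ⟨lev x⟩
        choose! f hf1 hf2 using h1
        have h2 : F.sup' hne f < lev x := by
          rw [Finset.sup'_lt_iff]
          exact hf1
        refine subset_trans (cl_closed (X (F.sup' hne f)) ?_)
          (subset_iUnion (fun j : {j // j < lev x} => cl op (X j.1)) ⟨_, h2⟩)
        intro y hy
        exact cl_mono (hXmono _ _ (Finset.le_sup' f hy)) (hf2 y hy)
    · intro hx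
      obtain ⟨j, hj⟩ := mem_iUnion.1 hx
      exact absurd j.2 (not_lt.2 (hlev' x j.1 hj))
    · intro y hy
      exact mem_iUnion.2 ⟨⟨lev y, hy⟩, hlev y⟩

/-- A graph on at most continuum many vertices is a countable union of triangle-free graphs: colour
`xy` by the first difference of two binary sequences. -/
theorem triColorable_of_le (V : Type u) (G : SimpleGraph V) (h : #V ≤ 𝔠) : TriColorable G := by
  classical
  have h1 : lift.{0} #V ≤ lift.{u} #(Set ℕ) := by
    rw [lift_uzero]
    refine h.trans ?_
    simp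
  obtain ⟨f⟩ := lift_mk_le'.1 h1
  have hne : ∀ x y, x ≠ y → ∃ n, ¬(n ∈ f x ↔ n ∈ f y) := by
    intro x y hxy
    by_contra hcon
    push Not at hcon
    exact hxy (f.injective (Set.ext hcon))
  let c : V → V → ℕ := fun x y => if h : ∃ n, ¬(n ∈ f x ↔ n ∈ f y) then Nat.find h else 0
  have hc : ∀ x y, x ≠ y → ¬(c x y ∈ f x ↔ c x y ∈ f y) := by
    intro x y hxy
    have h := hne x y hxy
    have h2 : c x y = Nat.find h := dif_pos h
    rw [h2]
    exact Nat.find_spec h
  have hsymm : ∀ x y, c x y = c y x := by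
    intro x y
    by_cases hxy : x = y
    · rw [hxy]
    · have h := hne x y hxy
      have h' := hne y x (Ne.symm hxy)
      have h2 : c x y = Nat.find h := dif_pos h
      have h3 : c y x = Nat.find h' := dif_pos h'
      rw [h2, h3]
      apply le_antisymm
      · exact Nat.find_min' _ (fun hh => Nat.find_spec h' hh.symm)
      · exact Nat.find_min' _ (fun hh => Nat.find_spec h hh.symm)
  refine ⟨c, hsymm, ?_⟩
  rintro x y z hxy hyz hxz ⟨e1, e2⟩
  have a1 := hc x y (G.ne_of_adj hxy)
  have a2 := hc y z (G.ne_of_adj hyz)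
  have a3 := hc x z (G.ne_of_adj hxz)
  rw [e1, e2] at a1
  rw [e2] at a2
  tauto

end Pool.Agent.H20EH
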