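import Pool.Agent.H20EH.Labels
import Pool.Agent.H20EH.Levels
import Pool.Agent.H20EH.Basic
import Pool.Agent.H33Core.Core

/-!
# Graphs on finite sequences whose adjacency depends only on the labels and on the order type
-/

namespace Pool.Agent.H20EH.Labels

open Pool.Agent.H20EH.Types

variable {L : Type} [LinearOrder L]

lemma exists_ofFn {A : Type} (x : List A) {n : ℕ} (h : x.length = n) :
    ∃ X : Fin n → A, x = List.ofFn X := by
  subst h
  exact ⟨x.get, by simp⟩

/-- One order type, one sequence of labels. -/
lemma cls (G : SimpleGraph (List L)) (l : L → ℝ)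
    (hinv : ∀ x y x' y' : List L, x.map l = x'.map l → y.map l = y'.map l →
      pattern (x ++ y) = pattern (x' ++ y') → (G.Adj x y ↔ G.Adj x' y'))
    {k : ℕ} (hK : G.CliqueFree k) (lam : List ℝ) (T : List (List Bool)) :
    ∃ f : List L → ℕ, ∀ x y z : List L, x.map l = lam → y.map l = lam → z.map l = lam →
      G.Adj x y → pattern (x ++ y) = T → pattern (y ++ z) = T → pattern (x ++ z) = T →
      f x ≠ f y ∧ f y ≠ f z ∧ f x ≠ f z := by
  classical
  by_cases hex : ∃ X Y Z : List L, X.map l = lam ∧ Y.map l = lam ∧ Z.map l = lam ∧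
      G.Adj X Y ∧ pattern (X ++ Y) = T ∧ pattern (Y ++ Z) = T ∧ pattern (X ++ Z) = T
  swap
  · refine ⟨fun _ => 0, ?_⟩
    intro x y z h1 h2 h3 h4 h5 h6 h7
    exact absurd ⟨x, y, z, h1, h2, h3, h4, h5, h6, h7⟩ hex
  obtain ⟨x0, y0, z0, lx, ly, lz, hadj, p1, p2, p3⟩ := hex
  have hlen : ∀ x : List L, x.map l = lam → x.length = lam.length := by
    intro x h
    rw [← h, List.length_map]
  obtain ⟨X, hX⟩ := exists_ofFn x0 (hlen x0 lx)
  obtain ⟨Y, hY⟩ := exists_ofFn y0 (hlen y0 ly)
  obtain ⟨Z, hZ⟩ := exists_ofFn z0 (hlen z0 lz)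
  have q1 : pattern (List.ofFn X ++ List.ofFn Y) = pattern (List.ofFn Y ++ List.ofFn Z) := by
    rw [← hX, ← hY, ← hZ, p1, p2]
  have q2 : pattern (List.ofFn X ++ List.ofFn Y) = pattern (List.ofFn X ++ List.ofFn Z) := by
    rw [← hX, ← hY, ← hZ, p1, p3]
  rw [← List.ofFn_fin_append, ← List.ofFn_fin_append, pattern_eq_iff] at q1
  rw [← List.ofFn_fin_append, ← List.ofFn_fin_append, pattern_eq_iff] at q2
  have h1 : ∀ i j, X i < X j ↔ Y i < Y j := fun i j => by
    simpa only [Fin.append_left, Fin.append_right] using
      q1 (Fin.castAdd lam.length i) (Fin.castAdd lam.length j)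
  have h3 : ∀ i j, X i < Y j ↔ Y i < Z j := fun i j => by
    simpa only [Fin.append_left, Fin.append_right] using
      q1 (Fin.castAdd lam.length i) (Fin.natAdd lam.length j)
  have h4 : ∀ i j, X i < Y j ↔ X i < Z j := fun i j => by
    simpa only [Fin.append_left, Fin.append_right] using
      q2 (Fin.castAdd lam.length i) (Fin.natAdd lam.length j)
  have h5 : ∀ i j, Y i < X j ↔ Z i < Y j := fun i j => by
    simpa only [Fin.append_left, Fin.append_right] using
      q1 (Fin.natAdd lam.length i) (Fin.castAdd lam.length j)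
  have h6 : ∀ i j, Y i < X j ↔ Z i < X j := fun i j => by
    simpa only [Fin.append_left, Fin.append_right] using
      q2 (Fin.natAdd lam.length i) (Fin.castAdd lam.length j)
  -- labels of tuples
  have hlab : ∀ x : Fin lam.length → L, (List.ofFn x).map l = lam ↔ ∀ i, l (x i) = l (X i) := by
    intro x
    have e : lam = List.ofFn (fun i => l (X i)) := by
      have e1 : x0.map l = List.ofFn (fun i => l (X i)) := by
        rw [hX, List.map_ofFn]
        rfl
      exact lx.symm.trans e1
    have e2 : (List.ofFn x).map l = List.ofFn (fun i => l (x i)) := by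
      rw [List.map_ofFn]
      rfl
    constructor
    · intro h i
      exact congrFun (List.ofFn_injective (e2.symm.trans (h.trans e))) i
    · intro h
      exact e2.trans ((congrArg List.ofFn (funext h)).trans e.symm)
  have hno : ¬ Fam X Y (fun i => {t : L | l t = l (X i)}) Finset.univ k := by
    rintro ⟨w, w1, w2, w3⟩
    have hw : ∀ a b, a < b → G.Adj (List.ofFn (w a)) (List.ofFn (w b)) := by
      intro a b hab
      refine (hinv x0 y0 (List.ofFn (w a)) (List.ofFn (w b)) ?_ ?_ ?_).1 hadj
      · rw [lx]
        exact ((hlab (w a)).2 (fun i => w1 a i (Finset.mem_univ i))).symm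
      · rw [ly]
        exact ((hlab (w b)).2 (fun i => w1 b i (Finset.mem_univ i))).symm
      · rw [hX, hY, ← List.ofFn_fin_append, ← List.ofFn_fin_append, pattern_eq_iff]
        intro p q
        refine Fin.addCases (fun i => ?_) (fun i => ?_) p <;>
          refine Fin.addCases (fun j => ?_) (fun j => ?_) q
        · simp only [Fin.append_left]
          exact (w2 a i (Finset.mem_univ i) j (Finset.mem_univ j)).symm
        · simp only [Fin.append_left, Fin.append_right]
          exact (w3 a b hab i (Finset.mem_univ i) j (Finset.mem_univ j)).1.symm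
        · simp only [Fin.append_left, Fin.append_right]
          exact (w3 a b hab i (Finset.mem_univ i) j (Finset.mem_univ j)).2.symm
        · simp only [Fin.append_right]
          exact ((w2 b i (Finset.mem_univ i) j (Finset.mem_univ j)).trans (h1 i j)).symm
    have hadj' : ∀ a b, a ≠ b → G.Adj (List.ofFn (w a)) (List.ofFn (w b)) := by
      intro a b hab
      rcases lt_or_gt_of_ne hab with h | h
      · exact hw a b h
      · exact (hw b a h).symm
    have hinj : Function.Injective (fun a => List.ofFn (w a)) := by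
      intro a b hab
      by_contra hne
      exact G.ne_of_adj (hadj' a b hne) hab
    refine hK (Finset.univ.map ⟨fun a => List.ofFn (w a), hinj⟩) ⟨?_, by simp⟩
    intro a ha b hb hab
    obtain ⟨i, -, rfl⟩ := Finset.mem_map.1 (Finset.mem_coe.1 ha)
    obtain ⟨j, -, rfl⟩ := Finset.mem_map.1 (Finset.mem_coe.1 hb)
    refine hadj' i j ?_
    rintro rfl
    exact hab rfl
  obtain ⟨f, hf⟩ := main h1 h3 h4 h5 h6 k _ Finset.univ rfl
    (fun i => {t : L | l t = l (X i)}) hno
  let g : List L → ℕ := Function.extend (List.ofFn (n := lam.length)) f (fun _ => 0)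
  have hg : ∀ x : Fin lam.length → L, g (List.ofFn x) = f x := fun x =>
    List.ofFn_injective.extend_apply f _ x
  refine ⟨g, ?_⟩
  have key : ∀ x y : List L, x.map l = lam → y.map l = lam → pattern (x ++ y) = T →
      g x ≠ g y := by
    intro x y hx hy hp
    obtain ⟨x', rfl⟩ := exists_ofFn x (hlen x hx)
    obtain ⟨y', rfl⟩ := exists_ofFn y (hlen y hy)
    rw [← p1, hX, hY, ← List.ofFn_fin_append, ← List.ofFn_fin_append, pattern_eq_iff] at hp
    rw [hg, hg]
    refine hf x' y' ?_ ?_ ?_ ?_ ?_
    · intro i _
      exact (hlab x').1 hx i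
    · intro i _
      exact (hlab y').1 hy i
    · intro i _ j _
      simpa only [Fin.append_left, Fin.append_right] using
        hp (Fin.castAdd lam.length i) (Fin.castAdd lam.length j)
    · intro i _ j _
      have := hp (Fin.natAdd lam.length i) (Fin.natAdd lam.length j)
      simp only [Fin.append_right] at this
      exact this.trans (h1 i j).symm
    · intro i _ j _
      refine ⟨?_, ?_⟩
      · simpa only [Fin.append_left, Fin.append_right] using
          hp (Fin.castAdd lam.length i) (Fin.natAdd lam.length j)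
      · simpa only [Fin.append_left, Fin.append_right] using
          hp (Fin.natAdd lam.length i) (Fin.castAdd lam.length j)
  intro x y z hx hy hz _ a1 a2 a3
  exact ⟨key x y hx hy a1, key y z hy hz a2, key x z hx hz a3⟩

/-- one class -/
lemma triColorable_cls (G : SimpleGraph (List L)) (l : L → ℝ)
    (hinv : ∀ x y x' y' : List L, x.map l = x'.map l → y.map l = y'.map l →
      pattern (x ++ y) = pattern (x' ++ y') → (G.Adj x y ↔ G.Adj x' y'))
    {k : ℕ} (hK : G.CliqueFree k) (lam : List ℝ) :
    Pool.Agent.H52EH.TriColorable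
      (G.comap (Subtype.val : {x : List L // x.map l = lam} → List L)) := by
  classical
  choose f hf using fun T => cls G l hinv hK lam T
  let T : List L → List L → ℕ := fun x y =>
    Encodable.encode ((pattern (x ++ y), min (f (pattern (x ++ y)) x) (f (pattern (x ++ y)) y)) :
      List (List Bool) × ℕ)
  have hT : ∀ x y x' y', T x y = T x' y' → pattern (x ++ y) = pattern (x' ++ y') ∧
      min (f (pattern (x ++ y)) x) (f (pattern (x ++ y)) y) =
        min (f (pattern (x' ++ y')) x') (f (pattern (x' ++ y')) y') := by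
    intro x y x' y' h
    have h1 := Encodable.encode_injective h
    exact ⟨congrArg Prod.fst h1, congrArg Prod.snd h1⟩
  -- sorted triangles
  have hsorted : ∀ x y z : List L, x.map l = lam → y.map l = lam → z.map l = lam → G.Adj x y →
      T x y = T y z → T x y = T x z → False := by
    intro x y z hx hy hz hxy h1 h2
    obtain ⟨a1, a2⟩ := hT _ _ _ _ h1
    obtain ⟨b1, b2⟩ := hT _ _ _ _ h2
    obtain ⟨c1, c2, c3⟩ := hf (pattern (x ++ y)) x y z hx hy hz hxy rfl a1.symm b1.symm
    rw [← a1] at a2
    rw [← b1] at b2
    generalize f (pattern (x ++ y)) x = a at *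
    generalize f (pattern (x ++ y)) y = b at *
    generalize f (pattern (x ++ y)) z = c at *
    omega
  let col : List L → List L → ℕ := fun x y => if x < y then T x y else T y x
  have hcol1 : ∀ x y, x < y → col x y = T x y := fun x y h => if_pos h
  have hcol2 : ∀ x y, x < y → col y x = T x y := fun x y h => if_neg (lt_asymm h)
  refine ⟨fun x y => col x.1 y.1, ?_, ?_⟩
  · rintro ⟨x, hx⟩ ⟨y, hy⟩
    change col x y = col y x
    rcases lt_trichotomy x y with h | h | h
    · rw [hcol1 x y h, hcol2 x y h]
    · rw [h]
    · rw [hcol1 y x h, hcol2 y x h]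
  · rintro ⟨x, hx⟩ ⟨y, hy⟩ ⟨z, hz⟩ hxy hyz hxz ⟨h1, h2⟩
    change G.Adj x y at hxy
    change G.Adj y z at hyz
    change G.Adj x z at hxz
    change col x y = col y z at h1
    change col y z = col x z at h2
    rcases lt_or_gt_of_ne (G.ne_of_adj hxy) with a | a <;>
      rcases lt_or_gt_of_ne (G.ne_of_adj hyz) with b | b <;>
      rcases lt_or_gt_of_ne (G.ne_of_adj hxz) with c | c
    · rw [hcol1 x y a, hcol1 y z b] at h1
      rw [hcol1 y z b, hcol1 x z c] at h2
      exact hsorted x y z hx hy hz hxy h1 (h1.trans h2)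
    · exact absurd (a.trans b) (lt_asymm c)
    · rw [hcol1 x y a, hcol2 z y b] at h1
      rw [hcol2 z y b, hcol1 x z c] at h2
      exact hsorted x z y hx hz hy hxz h2.symm (h2.symm.trans h1.symm)
    · rw [hcol1 x y a, hcol2 z y b] at h1
      rw [hcol2 z y b, hcol2 z x c] at h2
      exact hsorted z x y hz hx hy hxz.symm (h2.symm.trans h1.symm) h2.symm
    · rw [hcol2 y x a, hcol1 y z b] at h1
      rw [hcol1 y z b, hcol1 x z c] at h2
      exact hsorted y x z hy hx hz hxy.symm (h1.trans h2) h1
    · rw [hcol2 y x a, hcol1 y z b] at h1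
      rw [hcol1 y z b, hcol2 z x c] at h2
      exact hsorted y z x hy hz hx hyz h2 h1.symm
    · exact absurd (a.trans c) (lt_asymm b)
    · rw [hcol2 y x a, hcol2 z y b] at h1
      rw [hcol2 z y b, hcol2 z x c] at h2
      exact hsorted z y x hz hy hx hyz.symm h1.symm h2

/-- **Theorem.** A graph with bounded clique size on the finite sequences of a linear order with
real labels, whose adjacency depends only on the labels and on the order type, is decomposable. -/
theorem triColorable (G : SimpleGraph (List L)) (l : L → ℝ)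
    (hinv : ∀ x y x' y' : List L, x.map l = x'.map l → y.map l = y'.map l →
      pattern (x ++ y) = pattern (x' ++ y') → (G.Adj x y ↔ G.Adj x' y'))
    {k : ℕ} (hK : G.CliqueFree k) : Pool.Agent.H52EH.TriColorable G := by
  have h1 : Pool.Agent.H52EH.TriColorable
      (Pool.Agent.H33Core.inner G (fun x : List L => x.map l)) :=
    Pool.Agent.H33Core.triColorable_inner _ _ (fun lam => triColorable_cls G l hinv hK lam)
  have h2 : Pool.Agent.H52EH.TriColorable
      (Pool.Agent.H33Core.cross G (fun x : List L => x.map l)) := by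
    refine Pool.Agent.H20EH.triColorable_of_hom (G := (⊤ : SimpleGraph (List ℝ)))
      (fun x : List L => x.map l) ?_
      (Pool.Agent.H20EH.triColorable_of_le (List ℝ) ⊤ ?_)
    · intro x y hxy
      exact hxy.2
    · rw [Cardinal.mk_list_eq_mk, Cardinal.mk_real]
  exact Pool.Agent.H33Core.triColorable_mono
    (Pool.Agent.H33Core.le_inner_sup_cross G (fun x : List L => x.map l))
    (Pool.Agent.H33Core.triColorable_sup h1 h2)

end Pool.Agent.H20EH.Labels
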