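import Pool.Agent.H52EH.Color

/-!
# Graphs on finite sequences whose adjacency depends only on the order type
-/

namespace Pool.Agent.H20EH.Types

variable {L : Type} [LinearOrder L]

/-- The order pattern of a finite sequence: all truth values `s i < s j`. -/
def pattern (s : List L) : List (List Bool) := s.map fun a => s.map fun b => decide (a < b)

lemma pattern_ofFn {m : ℕ} (h : Fin m → L) :
    pattern (List.ofFn h) = List.ofFn (fun i => List.ofFn (fun j => decide (h i < h j))) := by
  simp [pattern, List.map_ofFn, Function.comp_def]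

lemma pattern_eq_iff {m : ℕ} (h h' : Fin m → L) :
    pattern (List.ofFn h) = pattern (List.ofFn h') ↔ ∀ i j, (h i < h j ↔ h' i < h' j) := by
  rw [pattern_ofFn, pattern_ofFn]
  constructor
  · intro he i j
    have h1 := List.ofFn_injective he
    have h2 := List.ofFn_injective (congrFun h1 i)
    have h3 := congrFun h2 j
    exact decide_eq_decide.1 h3
  · intro hh
    congr 1
    funext i
    congr 1
    funext j
    exact decide_eq_decide.2 (hh i j)

/-- A finite strict weak order is realised in every infinite linear order. -/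
lemma realize [Infinite L] {I : Type} [Fintype I] (R : I → I → Prop)
    (htrans : ∀ p q s, R p q → R q s → R p s) (hirr : ∀ p, ¬R p p)
    (hneg : ∀ p q s, R p s → R p q ∨ R q s) : ∃ g : I → L, ∀ p q, g p < g q ↔ R p q := by
  classical
  let r : I → ℕ := fun p => (Finset.univ.filter (fun s => R s p)).card
  have hr1 : ∀ p q, R p q → r p < r q := by
    intro p q hpq
    refine Finset.card_lt_card ?_
    rw [Finset.ssubset_iff_of_subset]
    · exact ⟨p, by simp [hpq], by simp [hirr p]⟩
    · intro s hs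
      simp only [Finset.mem_filter, Finset.mem_univ, true_and] at hs ⊢
      exact htrans _ _ _ hs hpq
  have hr2 : ∀ p q, ¬R p q → r q ≤ r p := by
    intro p q hpq
    refine Finset.card_le_card ?_
    intro s hs
    simp only [Finset.mem_filter, Finset.mem_univ, true_and] at hs ⊢
    rcases hneg s p q hs with h | h
    · exact h
    · exact absurd h hpq
  have hrN : ∀ p, r p < Fintype.card I + 1 := by
    intro p
    exact Nat.lt_succ_of_le (Finset.card_le_univ _)
  obtain ⟨s, hs⟩ := Infinite.exists_subset_card_eq L (Fintype.card I + 1)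
  let e := s.orderEmbOfFin hs
  refine ⟨fun p => e ⟨r p, hrN p⟩, ?_⟩
  intro p q
  rw [e.lt_iff_lt, Fin.mk_lt_mk]
  constructor
  · intro h
    by_contra hn
    exact absurd h (not_lt.2 (hr2 p q hn))
  · exact hr1 p q

lemma nat_three (a b c : ℕ) : ∃ α β γ : ℕ, (α < 3 ∧ β < 3 ∧ γ < 3) ∧
    ((a = b ↔ α = β) ∧ (a < b ↔ α < β)) ∧ ((b = c ↔ β = γ) ∧ (b < c ↔ β < γ)) ∧
      ((a = c ↔ α = γ) ∧ (a < c ↔ α < γ)) := by
  rcases lt_trichotomy a b with h1 | h1 | h1 <;> rcases lt_trichotomy b c with h2 | h2 | h2 <;>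
    rcases lt_trichotomy a c with h3 | h3 | h3 <;>
    first
    | (exfalso; omega)
    | exact ⟨0, 0, 0, by omega⟩
    | exact ⟨0, 0, 1, by omega⟩
    | exact ⟨0, 1, 0, by omega⟩
    | exact ⟨1, 0, 0, by omega⟩
    | exact ⟨0, 1, 1, by omega⟩
    | exact ⟨1, 0, 1, by omega⟩
    | exact ⟨1, 1, 0, by omega⟩
    | exact ⟨0, 1, 2, by omega⟩
    | exact ⟨0, 2, 1, by omega⟩
    | exact ⟨1, 0, 2, by omega⟩
    | exact ⟨1, 2, 0, by omega⟩
    | exact ⟨2, 0, 1, by omega⟩
    | exact ⟨2, 1, 0, by omega⟩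

lemma fin_three {k : ℕ} (a b c : Fin k) : ∃ α β γ : Fin 3,
    ((a = b ↔ α = β) ∧ (a < b ↔ α < β)) ∧ ((b = c ↔ β = γ) ∧ (b < c ↔ β < γ)) ∧
      ((a = c ↔ α = γ) ∧ (a < c ↔ α < γ)) := by
  obtain ⟨α, β, γ, ⟨h1, h2, h3⟩, h⟩ := nat_three a.1 b.1 c.1
  refine ⟨⟨α, h1⟩, ⟨β, h2⟩, ⟨γ, h3⟩, ?_⟩
  simpa only [Fin.ext_iff, Fin.lt_def] using h

/-- the pattern relation of one type -/
def Rel {n : ℕ} (X Y : Fin n → L) {k : ℕ} (p q : Fin k × Fin n) : Prop :=
  (p.1 = q.1 ∧ X p.2 < X q.2) ∨ (p.1 < q.1 ∧ X p.2 < Y q.2) ∨ (q.1 < p.1 ∧ Y p.2 < X q.2)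

lemma rel_three {n : ℕ} {X Y Z : Fin n → L}
    (h1 : ∀ i j, X i < X j ↔ Y i < Y j) (h2 : ∀ i j, X i < X j ↔ Z i < Z j)
    (h3 : ∀ i j, X i < Y j ↔ Y i < Z j) (h4 : ∀ i j, X i < Y j ↔ X i < Z j)
    (h5 : ∀ i j, Y i < X j ↔ Z i < Y j) (h6 : ∀ i j, Y i < X j ↔ Z i < X j)
    (c d : Fin 3) (i j : Fin n) :
    (![X, Y, Z] c i < ![X, Y, Z] d j) ↔ Rel X Y (c, i) (d, j) := by
  unfold Rel
  fin_cases c <;> fin_cases d <;> simp <;>
    first
    | exact (h1 i j).symm
    | exact (h2 i j).symm
    | exact (h3 i j).symm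
    | exact (h4 i j).symm
    | exact (h5 i j).symm
    | exact (h6 i j).symm

lemma rel_transfer {n : ℕ} {X Y : Fin n → L} {k l : ℕ} {a b : Fin k} {α β : Fin l}
    (h1 : a = b ↔ α = β) (h2 : a < b ↔ α < β) (i j : Fin n) :
    Rel X Y (a, i) (b, j) ↔ Rel X Y (α, i) (β, j) := by
  have h3 : b < a ↔ β < α := by
    constructor
    · intro h
      rcases lt_trichotomy α β with h' | h' | h'
      · exact absurd (h2.2 h') (lt_asymm h)
      · exact absurd (h1.2 h') h.ne'
      · exact h'
    · intro h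
      rcases lt_trichotomy a b with h' | h' | h'
      · exact absurd (h2.1 h') (lt_asymm h)
      · exact absurd (h1.1 h') h.ne'
      · exact h'
  unfold Rel
  simp only [h1, h2, h3]

/-- Three sequences, all pairs of the same type, give `k` such sequences. -/
lemma exists_many [Infinite L] (k : ℕ) {n : ℕ} {X Y Z : Fin n → L}
    (h1 : ∀ i j, X i < X j ↔ Y i < Y j) (h2 : ∀ i j, X i < X j ↔ Z i < Z j)
    (h3 : ∀ i j, X i < Y j ↔ Y i < Z j) (h4 : ∀ i j, X i < Y j ↔ X i < Z j)
    (h5 : ∀ i j, Y i < X j ↔ Z i < Y j) (h6 : ∀ i j, Y i < X j ↔ Z i < X j) :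
    ∃ g : Fin k × Fin n → L, ∀ p q, g p < g q ↔ Rel X Y p q := by
  have key := rel_three h1 h2 h3 h4 h5 h6
  refine realize (Rel X Y) ?_ ?_ ?_
  · rintro ⟨a, i⟩ ⟨b, j⟩ ⟨c, k⟩ hpq hqs
    obtain ⟨α, β, γ, ⟨e1, l1⟩, ⟨e2, l2⟩, ⟨e3, l3⟩⟩ := fin_three a b c
    rw [rel_transfer e1 l1, ← key] at hpq
    rw [rel_transfer e2 l2, ← key] at hqs
    rw [rel_transfer e3 l3, ← key]
    exact hpq.trans hqs
  · rintro ⟨a, i⟩ hp
    obtain ⟨α, β, γ, ⟨e1, l1⟩, -⟩ := fin_three a a a
    rw [rel_transfer (α := α) (β := α) (by simp) (by simp), ← key] at hp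
    exact lt_irrefl _ hp
  · rintro ⟨a, i⟩ ⟨b, j⟩ ⟨c, k⟩ hps
    obtain ⟨α, β, γ, ⟨e1, l1⟩, ⟨e2, l2⟩, ⟨e3, l3⟩⟩ := fin_three a b c
    rw [rel_transfer e3 l3, ← key] at hps
    rw [rel_transfer e1 l1, rel_transfer e2 l2, ← key, ← key]
    rcases lt_or_ge (![X, Y, Z] α i) (![X, Y, Z] β j) with h | h
    · exact Or.inl h
    · exact Or.inr (h.trans_lt hps)

/-- A monochromatic triangle gives cliques of every finite size. -/
lemma no_triangle [Infinite L] (G : SimpleGraph (List L))
    (hinv : ∀ x y x' y' : List L, x.length = x'.length → pattern (x ++ y) = pattern (x' ++ y') →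
      (G.Adj x y ↔ G.Adj x' y'))
    {k : ℕ} (hK : G.CliqueFree k) (x y z : List L) (hxy : G.Adj x y)
    (l1 : x.length = y.length) (l2 : x.length = z.length)
    (p1 : pattern (x ++ y) = pattern (y ++ z)) (p2 : pattern (x ++ y) = pattern (x ++ z)) :
    False := by
  classical
  obtain ⟨n, X, rfl⟩ : ∃ n, ∃ X : Fin n → L, x = List.ofFn X := ⟨x.length, x.get, by simp⟩
  obtain ⟨m, Y, rfl⟩ : ∃ n, ∃ X : Fin n → L, y = List.ofFn X := ⟨y.length, y.get, by simp⟩
  obtain ⟨m', Z, rfl⟩ : ∃ n, ∃ X : Fin n → L, z = List.ofFn X := ⟨z.length, z.get, by simp⟩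
  simp only [List.length_ofFn] at l1 l2
  subst l1
  subst l2
  rw [← List.ofFn_fin_append, ← List.ofFn_fin_append, pattern_eq_iff] at p1
  rw [← List.ofFn_fin_append, ← List.ofFn_fin_append, pattern_eq_iff] at p2
  have h1 : ∀ i j, X i < X j ↔ Y i < Y j := fun i j => by
    simpa only [Fin.append_left, Fin.append_right] using p1 (Fin.castAdd n i) (Fin.castAdd n j)
  have hY : ∀ i j, Y i < Y j ↔ Z i < Z j := fun i j => by
    simpa only [Fin.append_left, Fin.append_right] using p1 (Fin.natAdd n i) (Fin.natAdd n j)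
  have h2 : ∀ i j, X i < X j ↔ Z i < Z j := fun i j => (h1 i j).trans (hY i j)
  have h3 : ∀ i j, X i < Y j ↔ Y i < Z j := fun i j => by
    simpa only [Fin.append_left, Fin.append_right] using p1 (Fin.castAdd n i) (Fin.natAdd n j)
  have h4 : ∀ i j, X i < Y j ↔ X i < Z j := fun i j => by
    simpa only [Fin.append_left, Fin.append_right] using p2 (Fin.castAdd n i) (Fin.natAdd n j)
  have h5 : ∀ i j, Y i < X j ↔ Z i < Y j := fun i j => by
    simpa only [Fin.append_left, Fin.append_right] using p1 (Fin.natAdd n i) (Fin.castAdd n j)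
  have h6 : ∀ i j, Y i < X j ↔ Z i < X j := fun i j => by
    simpa only [Fin.append_left, Fin.append_right] using p2 (Fin.natAdd n i) (Fin.castAdd n j)
  obtain ⟨g, hg⟩ := exists_many k h1 h2 h3 h4 h5 h6
  let w : Fin k → List L := fun a => List.ofFn (fun i => g (a, i))
  have hw : ∀ a b, a < b → G.Adj (w a) (w b) := by
    intro a b hab
    refine (hinv (List.ofFn X) (List.ofFn Y) (w a) (w b) (by simp [w]) ?_).1 hxy
    change pattern (List.ofFn X ++ List.ofFn Y) =
      pattern (List.ofFn (fun i => g (a, i)) ++ List.ofFn (fun i => g (b, i)))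
    rw [← List.ofFn_fin_append, ← List.ofFn_fin_append, pattern_eq_iff]
    intro p q
    refine Fin.addCases (fun i => ?_) (fun i => ?_) p <;>
      refine Fin.addCases (fun j => ?_) (fun j => ?_) q
    · simp only [Fin.append_left, hg]
      simp [Rel]
    · simp only [Fin.append_left, Fin.append_right, hg]
      simp [Rel, hab, hab.ne, not_lt.2 hab.le]
    · simp only [Fin.append_left, Fin.append_right, hg]
      simp [Rel, hab, hab.ne', not_lt.2 hab.le]
    · simp only [Fin.append_right, hg]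
      simp [Rel, h1]
  have hadj : ∀ a b, a ≠ b → G.Adj (w a) (w b) := by
    intro a b hab
    rcases lt_or_gt_of_ne hab with h | h
    · exact hw a b h
    · exact (hw b a h).symm
  have hinj : Function.Injective w := by
    intro a b hab
    by_contra hne
    exact G.ne_of_adj (hadj a b hne) hab
  refine hK (Finset.univ.map ⟨w, hinj⟩) ⟨?_, by simp⟩
  intro a ha b hb hab
  obtain ⟨i, -, rfl⟩ := Finset.mem_map.1 (Finset.mem_coe.1 ha)
  obtain ⟨j, -, rfl⟩ := Finset.mem_map.1 (Finset.mem_coe.1 hb)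
  refine hadj i j ?_
  rintro rfl
  exact hab rfl

/-- A graph with bounded clique size on the finite sequences of a linear order whose adjacency depends only on the
order type is decomposable. -/
theorem triColorable (G : SimpleGraph (List L))
    (hinv : ∀ x y x' y' : List L, x.length = x'.length → pattern (x ++ y) = pattern (x' ++ y') →
      (G.Adj x y ↔ G.Adj x' y'))
    {k : ℕ} (hK : G.CliqueFree k) : Pool.Agent.H52EH.TriColorable G := by
  classical
  rcases finite_or_infinite L with hL | hL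
  · have : Countable (List L) := inferInstance
    obtain ⟨f, hf⟩ := exists_injective_nat (List L)
    refine ⟨fun x y => min (f x) (f y), fun x y => min_comm _ _, ?_⟩
    rintro x y z hxy hyz hxz ⟨h1, h2⟩
    have nxy : f x ≠ f y := fun h => G.ne_of_adj hxy (hf h)
    have nyz : f y ≠ f z := fun h => G.ne_of_adj hyz (hf h)
    have nxz : f x ≠ f z := fun h => G.ne_of_adj hxz (hf h)
    change min (f x) (f y) = min (f y) (f z) at h1
    change min (f y) (f z) = min (f x) (f z) at h2
    omega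
  let T : List L → List L → ℕ := fun x y =>
    Encodable.encode ((x.length, pattern (x ++ y)) : ℕ × List (List Bool))
  have hT : ∀ x y x' y', T x y = T x' y' →
      x.length = x'.length ∧ pattern (x ++ y) = pattern (x' ++ y') := by
    intro x y x' y' h
    have h1 := Encodable.encode_injective h
    exact ⟨congrArg Prod.fst h1, congrArg Prod.snd h1⟩
  have hlen : ∀ s s' : List L, pattern s = pattern s' → s.length = s'.length := by
    intro s s' h
    have h1 := congrArg List.length h
    simpa [pattern] using h1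
  -- sorted triangles
  have hsorted : ∀ x y z, G.Adj x y → T x y = T y z → T x y = T x z → False := by
    intro x y z hxy h1 h2
    obtain ⟨a1, a2⟩ := hT _ _ _ _ h1
    obtain ⟨b1, b2⟩ := hT _ _ _ _ h2
    have c1 := hlen _ _ a2
    rw [List.length_append, List.length_append] at c1
    exact no_triangle G hinv hK x y z hxy a1 (by omega) a2 b2
  let col : List L → List L → ℕ := fun x y => if x < y then T x y else T y x
  have hcol1 : ∀ x y, x < y → col x y = T x y := fun x y h => if_pos h
  have hcol2 : ∀ x y, x < y → col y x = T x y := fun x y h => if_neg (lt_asymm h)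
  refine ⟨col, ?_, ?_⟩
  · intro x y
    rcases lt_trichotomy x y with h | h | h
    · rw [hcol1 x y h, hcol2 x y h]
    · rw [h]
    · rw [hcol1 y x h, hcol2 y x h]
  · rintro x y z hxy hyz hxz ⟨h1, h2⟩
    rcases lt_or_gt_of_ne (G.ne_of_adj hxy) with a | a <;>
      rcases lt_or_gt_of_ne (G.ne_of_adj hyz) with b | b <;>
      rcases lt_or_gt_of_ne (G.ne_of_adj hxz) with c | c
    · rw [hcol1 x y a, hcol1 y z b] at h1
      rw [hcol1 y z b, hcol1 x z c] at h2
      exact hsorted x y z hxy h1 (h1.trans h2)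
    · exact absurd (a.trans b) (lt_asymm c)
    · rw [hcol1 x y a, hcol2 z y b] at h1
      rw [hcol2 z y b, hcol1 x z c] at h2
      exact hsorted x z y hxz h2.symm (h2.symm.trans h1.symm)
    · rw [hcol1 x y a, hcol2 z y b] at h1
      rw [hcol2 z y b, hcol2 z x c] at h2
      exact hsorted z x y hxz.symm (h2.symm.trans h1.symm) h2.symm
    · rw [hcol2 y x a, hcol1 y z b] at h1
      rw [hcol1 y z b, hcol1 x z c] at h2
      exact hsorted y x z hxy.symm (h1.trans h2) h1
    · rw [hcol2 y x a, hcol1 y z b] at h1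
      rw [hcol1 y z b, hcol2 z x c] at h2
      exact hsorted y z x hyz h2 h1.symm
    · exact absurd (a.trans c) (lt_asymm b)
    · rw [hcol2 y x a, hcol2 z y b] at h1
      rw [hcol2 z y b, hcol2 z x c] at h2
      exact hsorted z y x hyz.symm h1.symm h2

end Pool.Agent.H20EH.Types
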